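import Pool.Agent.Q62.SP.Stm

/-!
Project SP: one more statement.
-/

open MeasureTheory Set Filter Topology
open scoped ContDiff
open H459R3.NS (V pd Per cube)

namespace Pool.Agent.Q62.SP

/-- Job 35. The operator gains one derivative up to a logarithmic factor. May use `S_EDI`, `S_MIN`,
`S_FIN`.

Proof. As for `S_BGN`, the `L²` norm of the `i`-th component of the `n`-th term of
`BB N f (x + h) - BB N f x` is at most `(2 N K² / ca) M (n + 1)^2 2^(-n) min 1 (2^n ‖h‖)`, where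
`M = (ip f f)^(1/2)`. It remains to see that `∑ (n + 1)^2 min (2^(-n)) ‖h‖ ≤ C ‖h‖ (1 + |log ‖h‖|)^3`.
If `‖h‖ ≥ 1` the sum is at most `∑ (n + 1)^2 2^(-n) ≤ 12 ‖h‖`. If `0 < ‖h‖ < 1` let `m` be the least
natural number with `2^(-m) ≤ ‖h‖`. The terms with `n < m` sum to at most `m^3 ‖h‖`, the others to at
most `2^(-m) ∑_k (m + k + 1)^2 2^(-k) ≤ C (m + 1)^2 ‖h‖`, and `m + 1 ≤ 2 + |log ‖h‖| / log 2
≤ 2 (1 + |log ‖h‖|)`. If `h = 0` both sides are zero. (To apply `S_MIN` with positive bounds one may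
use `(n + 1)^2 (2^(-n) min 1 (2^n ‖h‖)) + ε 2^(-n)` and let `ε → 0`, or treat `h = 0` and `M = 0`
apart.) -/
def S_BLG : Prop := ∀ N C : ℝ, 198 ≤ N → EDB N C → ∃ K : ℝ, 0 < K ∧
  ∀ f, L2P f → ∀ h : V,
    ip (fun x => BB N f (x + h) - BB N f x) (fun x => BB N f (x + h) - BB N f x)
      ≤ (K * (‖h‖ * (1 + |Real.log ‖h‖|) ^ 3)) ^ 2 * ip f f

end Pool.Agent.Q62.SP
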