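import Pool.Agent.Q62.SP.Stm2

/-!
Project SP: assembly.
-/

open MeasureTheory Set Filter Topology
open scoped ContDiff
open H459R3.NS (V pd Per cube)

namespace Pool.Agent.Q62.SP

theorem ip_smul_right (c : ℝ) (f g : V → V) : ip f (fun x => c • g x) = c * ip f g := by
  unfold ip
  rw [← integral_const_mul]
  congr 1
  funext x
  rw [Finset.mul_sum]
  refine Finset.sum_congr rfl fun i _ => ?_
  simp only [Pi.smul_apply, smul_eq_mul]
  ring

theorem ip_smul_left (c : ℝ) (f g : V → V) : ip (fun x => c • f x) g = c * ip f g := by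
  unfold ip
  rw [← integral_const_mul]
  congr 1
  funext x
  rw [Finset.mul_sum]
  refine Finset.sum_congr rfl fun i _ => ?_
  simp only [Pi.smul_apply, smul_eq_mul]
  ring

theorem ip_self_nonneg (f : V → V) : 0 ≤ ip f f :=
  integral_nonneg fun x => Finset.sum_nonneg fun i _ => mul_self_nonneg _

theorem ip_scaled (c : ℝ) (f : V → V) :
    ip (fun x => c • f x) (fun x => c • f x) = c ^ 2 * ip f f := by
  rw [ip_smul_left, ip_smul_right]; ring

theorem pd_smul (c : ℝ) (f : V → V) (hf : ContDiff ℝ 1 f) (i j : Fin 3) (x : V) :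
    pd j (fun y => (c • f y) i) x = c * pd j (fun y => f y i) x := by
  have hd : DifferentiableAt ℝ (fun y => f y i) x :=
    ((contDiff_apply ℝ ℝ i).comp hf).differentiable one_ne_zero x
  have e : (fun y => (c • f y) i) = fun y => c * f y i := by
    funext y; simp
  unfold pd
  rw [e, fderiv_const_mul hd]
  simp

theorem pairing_planar {N : ℝ} {f : V → V} (hf : ∀ x, f x 2 = 0) (n : ℕ) : ip f (ee N n) = 0 := by
  unfold ip
  have : (fun x => ∑ i, f x i * ee N n x i) = fun _ => (0 : ℝ) := by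
    funext x
    simp [Fin.sum_univ_three, ee, hf x]
  rw [this]
  simp

theorem ka_nonneg (h1 : S_PHI) {N : ℝ} (hN : 198 ≤ N) (n : ℕ) : 0 ≤ ka N n := by
  have hca : 0 < ca := h1.2.2.2.2.2.2.1
  unfold ka
  have : 0 ≤ N := by linarith
  positivity

theorem summable_norms (h1 : S_PHI) (h19 : S_EDI) {N C : ℝ} (hN : 198 ≤ N) (hC : EDB N C) :
    Summable (fun n => ka N n * √(ip (ee N n) (ee N n)) * √(ip (dd N n) (dd N n))) := by
  obtain ⟨K, hK, hb⟩ := h19 N C hN hC
  have hca : 0 < ca := h1.2.2.2.2.2.2.1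
  have hN0 : 0 < N := by linarith
  have hs : Summable (fun n : ℕ => (N * K ^ 2 / ca) * (((n : ℝ) + 1) ^ 2 * (1 / 2) ^ n)) := by
    apply Summable.mul_left
    have h2 : Summable (fun n : ℕ => ((n : ℝ)) ^ 2 * (1 / 2 : ℝ) ^ n) :=
      summable_pow_mul_geometric_of_norm_lt_one 2 (by norm_num)
    have h3 := (summable_nat_add_iff 1).2 h2
    have h4 : (fun n : ℕ => ((n : ℝ) + 1) ^ 2 * (1 / 2 : ℝ) ^ n)
        = fun n : ℕ => 2 * (((n + 1 : ℕ) : ℝ) ^ 2 * (1 / 2 : ℝ) ^ (n + 1)) := by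
      funext n
      push_cast
      ring
    rw [h4]
    exact h3.mul_left 2
  refine Summable.of_nonneg_of_le (fun n => ?_) (fun n => ?_) hs
  · have := ka_nonneg h1 hN n
    positivity
  · have e1 : √(ip (ee N n) (ee N n)) ≤ K / 2 ^ n := by
      rw [Real.sqrt_le_left (by positivity)]
      refine (hb n).1.trans (le_of_eq ?_)
      rw [div_pow, ← pow_mul, mul_comm n 2, pow_mul]
      norm_num
    have e2 : √(ip (dd N n) (dd N n)) ≤ K / 4 ^ n := by
      rw [Real.sqrt_le_left (by positivity)]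
      refine (hb n).2.1.trans (le_of_eq ?_)
      rw [div_pow, ← pow_mul, mul_comm n 2, pow_mul]
      norm_num
    have hka := ka_nonneg h1 hN n
    calc ka N n * √(ip (ee N n) (ee N n)) * √(ip (dd N n) (dd N n))
        ≤ ka N n * (K / 2 ^ n) * (K / 4 ^ n) := by gcongr
      _ = (N * K ^ 2 / ca) * (((n : ℝ) + 1) ^ 2 * (1 / 2) ^ n) := by
          unfold ka
          field_simp
          rw [← mul_pow]
          norm_num

theorem smoothing_of (h1 : S_PHI) (h19 : S_EDI) (h23 : S_BL2) (h24 : S_BGN) (h25 : S_BC1) (h35 : S_BLG) {N C : ℝ}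
    (hN : 198 ≤ N) (hC : EDB N C) {γ δ r : ℝ} (hγ0 : 0 < γ) (hγ1 : γ < 1) (hδ : 0 < δ)
    (hr : 66 / N ≤ r) : ∃ c : ℝ, 0 < c ∧ Smoothing γ δ r (fun f x => c • BB N f x) := by
  obtain ⟨hmaps, hadd, hsmul, hsymm, K1, hK1, hb1⟩ := h23 N C hN hC
  obtain ⟨K2, hK2, hb2⟩ := h24 N C hN hC γ hγ0 hγ1
  obtain ⟨hc1, K3, hK3, hb3⟩ := h25 N C hN hC
  have hN0 : 0 < N := by linarith
  have hsum := summable_norms h1 h19 hN hC
  set K5 := ∑' n, ka N n * √(ip (ee N n) (ee N n)) * √(ip (dd N n) (dd N n)) with hK5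
  have hK50 : 0 ≤ K5 := tsum_nonneg fun n => by
    have := ka_nonneg h1 hN n
    positivity
  set K := K1 + K2 + K3 + K5 with hK
  have hK0 : 0 < K := by positivity
  set c := δ / K with hc
  have hc0 : 0 < c := by positivity
  have hcK : c * K = δ := by rw [hc]; field_simp
  have l1 : c * K1 ≤ δ := by
    rw [← hcK]; exact mul_le_mul_of_nonneg_left (by rw [hK]; linarith) hc0.le
  have l2 : c * K2 ≤ δ := by
    rw [← hcK]; exact mul_le_mul_of_nonneg_left (by rw [hK]; linarith) hc0.le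
  have l3 : c * K3 ≤ δ := by
    rw [← hcK]; exact mul_le_mul_of_nonneg_left (by rw [hK]; linarith) hc0.le
  have l5 : c * K5 ≤ δ := by
    rw [← hcK]; exact mul_le_mul_of_nonneg_left (by rw [hK]; linarith) hc0.le
  have hdiff : ∀ (f : V → V) (h : V), (fun x => c • BB N f (x + h) - c • BB N f x)
      = fun x => c • (BB N f (x + h) - BB N f x) := by
    intro f h; funext x; rw [smul_sub]
  refine ⟨c, hc0, ⟨?_, ?_, ?_, ?_, ?_, ?_, ?_, ?_⟩, ?_, ?_, ?_, ?_, ?_, ?_⟩
  · intro f hf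
    have h := hmaps f hf
    exact ⟨fun i x => by simp only [h.per i x], fun i => (h.mem i).const_mul c⟩
  · intro f g hf hg
    funext x
    rw [hadd f g hf hg, smul_add]
  · intro a f hf
    funext x
    rw [hsmul a f hf, smul_comm]
  · intro f g hf hg
    rw [ip_smul_right, ip_smul_left, hsymm f g hf hg]
  · intro f hf
    rw [ip_scaled]
    have h1 := hb1 f hf
    have h2 := ip_self_nonneg f
    calc c ^ 2 * ip (BB N f) (BB N f) ≤ c ^ 2 * (K1 ^ 2 * ip f f) := by gcongr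
      _ = (c * K1) ^ 2 * ip f f := by ring
      _ ≤ δ ^ 2 * ip f f := by gcongr
  · intro f hf
    have h := (hc1 f hf).1
    exact ⟨h.c1.const_smul c, fun i x => by simp only [h.per i x]⟩
  · intro f hf x
    have h := hc1 f hf
    simp_rw [pd_smul c (BB N f) h.1.c1]
    rw [← Finset.mul_sum, h.2 x, mul_zero]
  · intro f L hf hL x i j
    have h := hc1 f hf
    rw [pd_smul c (BB N f) h.1.c1, abs_mul, abs_of_pos hc0]
    have h1 := hb3 f L hf hL x i j
    have hL0 : 0 ≤ L := (abs_nonneg _).trans (hL x i j)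
    calc c * |pd j (fun y => BB N f y i) x| ≤ c * (K3 * L) := by gcongr
      _ = (c * K3) * L := by ring
      _ ≤ δ * L := by gcongr
  · have hu : ∀ n, √(ip (fun x => (c * ka N n) • ee N n x) (fun x => (c * ka N n) • ee N n x))
        * √(ip (dd N n) (dd N n))
        = c * (ka N n * √(ip (ee N n) (ee N n)) * √(ip (dd N n) (dd N n))) := by
      intro n
      have hka := ka_nonneg h1 hN n
      rw [ip_scaled, Real.sqrt_mul (by positivity), Real.sqrt_sq (by positivity)]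
      ring
    refine ⟨fun n x => (c * ka N n) • ee N n x, fun n => dd N n, ?_, ?_, ?_, ?_, ?_⟩
    · intro n
      refine ⟨(hC.smooth n).1.const_smul _, fun i x => by simp only [(hC.per n).1 i x],
        (hC.smooth n).2, (hC.per n).2⟩
    · intro n x
      refine ⟨?_, (hC.div n x).2⟩
      simp_rw [pd_smul (c * ka N n) (ee N n) ((hC.smooth n).1.of_le (by norm_cast))]
      rw [← Finset.mul_sum, (hC.div n x).1, mul_zero]
    · simp only [hu]
      exact hsum.mul_left c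
    · simp only [hu]
      rw [tsum_mul_left]
      exact l5
    · intro f x i
      simp only [Pi.smul_apply, smul_eq_mul]
      unfold BB
      rw [← tsum_mul_left]
      congr 1
      funext n
      rw [ip_smul_right]
      ring
  · intro f hf h
    have h1 := hb2 f hf h
    have h2 := ip_self_nonneg f
    have h3 : 0 ≤ ‖h‖ ^ γ := Real.rpow_nonneg (norm_nonneg _) _
    simp only [hdiff f h]
    rw [ip_scaled]
    calc c ^ 2 * ip (fun x => BB N f (x + h) - BB N f x) (fun x => BB N f (x + h) - BB N f x)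
        ≤ c ^ 2 * ((K2 * ‖h‖ ^ γ) ^ 2 * ip f f) := by gcongr
      _ = (c * K2 * ‖h‖ ^ γ) ^ 2 * ip f f := by ring
      _ ≤ (δ * ‖h‖ ^ γ) ^ 2 * ip f f := by gcongr
  · obtain ⟨K4, hK4, hb4⟩ := h35 N C hN hC
    refine ⟨c * K4, fun f hf h => ?_⟩
    have h1 := hb4 f hf h
    simp only [hdiff f h]
    rw [ip_scaled]
    calc c ^ 2 * ip (fun x => BB N f (x + h) - BB N f x) (fun x => BB N f (x + h) - BB N f x)
        ≤ c ^ 2 * ((K4 * (‖h‖ * (1 + |Real.log ‖h‖|) ^ 3)) ^ 2 * ip f f) := by gcongr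
      _ = (c * K4 * (‖h‖ * (1 + |Real.log ‖h‖|) ^ 3)) ^ 2 * ip f f := by ring
  · intro f x hx
    have hx' : BB N f x ≠ 0 := by
      intro h0; apply hx; simp only [h0, smul_zero]
    have hex : ∃ n, ee N n x ≠ 0 ∨ dd N n x ≠ 0 := by
      by_contra hcon
      push Not at hcon
      apply hx'
      funext i
      have : ∀ n, ka N n * (ip f (ee N n) * dd N n x i + ip f (dd N n) * ee N n x i) = 0 := by
        intro n
        rw [(hcon n).1, (hcon n).2]
        simp
      unfold BB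
      simp only [this, tsum_zero, Pi.zero_apply]
    obtain ⟨n, hn⟩ := hex
    have hS := hC.supp n x hn
    have h2 : (66 : ℝ) / 2 ^ n ≤ 66 := by
      apply div_le_self (by norm_num)
      exact one_le_pow₀ (by norm_num)
    have aux : ∀ s : ℝ, |xi N s| ≤ 66 / 2 ^ n → |Int.fract s - 1 / 2| ≤ r := by
      intro s hs
      unfold xi at hs
      rw [abs_mul, abs_of_pos hN0] at hs
      refine le_trans ?_ hr
      rw [le_div_iff₀ hN0]
      linarith
    exact ⟨aux _ hS.1, aux _ hS.2⟩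
  · intro f x s
    have e : ∀ n, ee N n (x + Pi.single 2 s) = ee N n x := by
      intro n; unfold ee; simp
    have d : ∀ n, dd N n (x + Pi.single 2 s) = dd N n x := by
      intro n; unfold dd; simp
    unfold BB
    simp only [e, d]
  · intro f hf x
    have e0 : ∀ n, ip f (ee N n) = 0 := pairing_planar hf
    unfold BB
    constructor
    · simp [e0, ee]
    · simp [e0, ee]

/-- The statement of the theorem. -/
def Goal : Prop := ∀ r : ℝ, 0 < r → ∃ v₀ : V → V, ContDiff ℝ ∞ v₀ ∧ Per v₀ ∧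
  (∀ x, v₀ x 0 = 0 ∧ v₀ x 1 = 0) ∧ (∀ x y : V, x 1 = y 1 → v₀ x = v₀ y) ∧
  ∀ γ δ : ℝ, 0 < γ → γ < 1 → 0 < δ → ∃ A : (V → V) → V → V, Smoothing γ δ r A ∧
    (∀ T v p, Sol A T v p → ∀ t ∈ Ico 0 T,
      ip (v t) (v t) + ip (v t) (A (v t)) = ip (v 0) (v 0) + ip (v 0) (A (v 0))) ∧
    ∃ (T : ℝ) (v : ℝ → V → V), 0 < T ∧ v 0 = v₀ ∧ Sol A T v (fun _ _ => 0) ∧
      ContDiffOn ℝ ∞ (fun z : ℝ × V => v z.1 z.2) (Ico 0 T ×ˢ univ) ∧
      (∀ t ∈ Ico 0 T, ∀ x, v t x 0 = 0 ∧ v t x 1 = 0 ∧ 0 ≤ v t x 2 ∧ v t x 2 ≤ 1 ∧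
        ∀ s : ℝ, v t (x + Pi.single 2 s) = v t x) ∧
      (∀ K : ℝ, ∃ t₀ ∈ Ico 0 T, ∀ t ∈ Ioo t₀ T, ∃ x, K < |pd 1 (fun y => v t y 2) x|) ∧
      ∀ T' v' p', Sol A T' v' p' → v' 0 = v₀ → T' ≤ T ∧ ∀ t ∈ Ico 0 T', v' t = v t

theorem contDiff_slice1 {T : ℝ} {v : ℝ → V → V}
    (hv : ContDiffOn ℝ ∞ (fun z : ℝ × V => v z.1 z.2) (Ico 0 T ×ˢ univ)) {t : ℝ}
    (ht : t ∈ Ico 0 T) : ContDiff ℝ ∞ (v t) := by
  rw [← contDiffOn_univ]
  exact hv.comp (contDiff_const.prodMk contDiff_id).contDiffOn (fun x _ => ⟨ht, mem_univ _⟩)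

theorem assembly (h1 : S_PHI) (h4 : S_CLK) (h12 : S_ZZZ) (h18 : S_EDN) (h19 : S_EDI)
    (h23 : S_BL2) (h24 : S_BGN) (h25 : S_BC1) (h27 : S_SLN) (h28 : S_GRD)
    (h31 : S_ENE) (h33 : S_BDG) (h34 : S_UNI) (h35 : S_BLG) : Goal := by
  intro r hr
  set N : ℝ := max 198 (66 / r) with hN
  have hN1 : 198 ≤ N := le_max_left _ _
  have hN0 : 0 < N := by linarith
  have hNr : 66 / N ≤ r := by
    rw [div_le_iff₀ hN0]
    have : 66 / r ≤ N := le_max_right _ _
    rw [div_le_iff₀ hr] at this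
    linarith
  obtain ⟨Z, hZ⟩ := h12
  obtain ⟨C, hC⟩ := h18 N hN1
  obtain ⟨T₁, S₁, hT₁, hS₁, hS0, hSd, hSn, hSt⟩ := h4
  -- the solution for each c
  have key : ∀ c : ℝ, 0 < c →
      Sol (fun f x => c • BB N f x) (T₁ / c) (fun t => ww N Z (S₁ (c * t))) (fun _ _ => 0) ∧
      ContDiffOn ℝ ∞ (fun z : ℝ × V => ww N Z (S₁ (c * z.1)) z.2) (Ico 0 (T₁ / c) ×ˢ univ) := by
    intro c hc
    have hlt : ∀ t, t < T₁ / c → c * t < T₁ := by
      intro t ht
      rw [lt_div_iff₀ hc] at ht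
      linarith
    refine h27 N c (T₁ / c) hN1 hc (by positivity) Z hZ (fun t => S₁ (c * t)) ?_ ?_ ?_
    · exact hS₁.comp (contDiff_const.mul contDiff_id).contDiffOn (fun t ht => hlt t ht)
    · intro t ht
      have h := hSd (c * t) (hlt t ht)
      have h2 : HasDerivAt (fun t => S₁ (c * t)) (FF (S₁ (c * t)) * (c * 1)) t :=
        h.comp t ((hasDerivAt_id t).const_mul c)
      rw [mul_one, mul_comm] at h2
      exact h2
    · intro t ht0 ht
      exact hSn _ (by positivity) (hlt t ht)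
  have hww0 : ∀ x, ww N Z 0 x = ![0, 0, 1 - phi (2 * xi N (x 1) / 5)] := by
    intro x
    unfold ww WW
    rw [hZ.init]
  refine ⟨ww N Z 0, ?_, ?_, ?_, ?_, ?_⟩
  · have := contDiff_slice1 (T := T₁ / 1) (v := fun t => ww N Z (S₁ (1 * t))) (key 1 one_pos).2
      (t := 0) ⟨le_rfl, by positivity⟩
    simpa [hS0] using this
  · have := (key 1 one_pos).1.per_v 0 ⟨le_rfl, by positivity⟩
    simpa [hS0] using this
  · intro x
    rw [hww0]
    simp
  · intro x y hxy
    rw [hww0, hww0, hxy]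
  intro γ δ hγ0 hγ1 hδ
  obtain ⟨c, hc, hA⟩ := smoothing_of h1 h19 h23 h24 h25 h35 hN1 hC hγ0 hγ1 hδ hNr
  obtain ⟨hsol, hsm⟩ := key c hc
  have hT : 0 < T₁ / c := by positivity
  have hgrad : ∀ K : ℝ, ∃ t₀ ∈ Ico 0 (T₁ / c), ∀ t ∈ Ioo t₀ (T₁ / c), ∃ x,
      K < |pd 1 (fun y => ww N Z (S₁ (c * t)) y 2) x| := by
    intro K
    have hev : ∀ᶠ u in 𝓝[<] T₁, K * 5 / N < S₁ u := hSt.eventually_gt_atTop _
    rw [eventually_nhdsWithin_iff, Metric.eventually_nhds_iff] at hev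
    obtain ⟨ε, hε, hev⟩ := hev
    refine ⟨max 0 ((T₁ - ε) / c), ⟨le_max_left _ _, ?_⟩, ?_⟩
    · rw [max_lt_iff]
      refine ⟨hT, ?_⟩
      gcongr
      linarith
    · intro t ht
      have ht0 : 0 < t := (le_max_left _ _).trans_lt ht.1
      have ht1 : (T₁ - ε) / c < t := (le_max_right _ _).trans_lt ht.1
      have ht2 : c * t < T₁ := by
        have := ht.2
        rw [lt_div_iff₀ hc] at this
        linarith
      have ht3 : T₁ - ε < c * t := by
        rw [div_lt_iff₀ hc] at ht1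
        linarith
      have h5 : K * 5 / N < S₁ (c * t) := by
        refine hev ?_ ht2
        rw [Real.dist_eq, abs_lt]
        constructor <;> linarith
      have hs0 : 0 ≤ S₁ (c * t) := hSn _ (by positivity) ht2
      have hcd : ContDiff ℝ 1 (fun x : V => ww N Z (S₁ (c * t)) x 2) := by
        have := contDiff_slice1 (v := fun t => ww N Z (S₁ (c * t))) hsm (t := t) ⟨ht0.le, ht.2⟩
        exact ((contDiff_apply ℝ ℝ (2 : Fin 3)).comp this).of_le (by norm_cast)
      obtain ⟨x, hx⟩ := h28 N hN1 Z hZ _ hs0 hcd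
      refine ⟨x, lt_of_lt_of_le ?_ hx⟩
      have h6 : S₁ (c * t) < Real.exp (S₁ (c * t)) := by
        have := Real.add_one_le_exp (S₁ (c * t))
        linarith
      have h7 : K * 5 / N < Real.exp (S₁ (c * t)) := h5.trans h6
      rw [div_lt_iff₀ hN0] at h7
      have : N / 5 * Real.exp (S₁ (c * t)) = Real.exp (S₁ (c * t)) * N / 5 := by ring
      rw [this]
      linarith
  refine ⟨_, hA, fun T v p hs => h31 δ _ hA.op T v p hs, T₁ / c,
    fun t => ww N Z (S₁ (c * t)), hT, ?_, hsol, hsm, ?_, hgrad, ?_⟩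
  · simp [hS0]
  · intro t ht x
    have hphi := h1.1.2.1 (2 * Z (xi N (x 0)) (xi N (x 1)) (S₁ (c * t)) / 5)
    refine ⟨by simp [ww], by simp [ww], ?_, ?_, ?_⟩
    · simp only [ww, WW]
      simp
      linarith [hphi.2]
    · simp only [ww, WW]
      simp
      linarith [hphi.1]
    · intro s
      simp [ww]
  · intro T' v' p' hs' h0
    have h0' : (fun t => ww N Z (S₁ (c * t))) 0 = v' 0 := by
      simp [hS0, h0]
    have huni := h34 δ _ hδ.le hA.op (T₁ / c) T' _ v' _ p' hsol hs' h0'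
    have hle : T' ≤ T₁ / c := by
      by_contra hcon
      push Not at hcon
      obtain ⟨L, hL⟩ := h33 T' (T₁ / c) v' hs'.c1_v hs'.per_v hcon
      obtain ⟨t₀, ht₀, hb⟩ := hgrad L
      have hmid : (t₀ + T₁ / c) / 2 ∈ Ioo t₀ (T₁ / c) := by
        constructor <;> linarith [ht₀.2]
      obtain ⟨x, hx⟩ := hb _ hmid
      have hmem : (t₀ + T₁ / c) / 2 ∈ Ico 0 (min (T₁ / c) T') := by
        rw [min_eq_left hcon.le]
        exact ⟨by linarith [ht₀.1, hmid.1], hmid.2⟩
      have he := huni _ hmem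
      have hx2 := hL _ ⟨hmem.1, hmid.2.le⟩ x 2 1
      have he2 : (fun y => ww N Z (S₁ (c * ((t₀ + T₁ / c) / 2))) y 2)
          = fun y => v' ((t₀ + T₁ / c) / 2) y 2 := by
        funext y
        exact congrFun (congrFun he y) 2
      rw [he2] at hx
      linarith
    refine ⟨hle, fun t ht => ?_⟩
    have hmem : t ∈ Ico 0 (min (T₁ / c) T') := by
      rw [min_eq_right hle]; exact ht
    exact (huni t hmem).symm

end Pool.Agent.Q62.SP
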