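import Pool.Agent.H459R3.NS.Defs

/-!
Definitions used in the statement: small smoothing operators on periodic vector fields and solutions
of the perturbed Euler equations.
-/

open MeasureTheory Set Filter Topology
open scoped ContDiff
open H459R3.NS (V pd Per cube)

namespace Pool.Agent.Q62.SP

noncomputable section

/-- The inner product of `L²` of the cube. -/
def ip (f g : V → V) : ℝ := ∫ x in cube, ∑ i, f x i * g x i

/-- Periodic vector fields with components in `L²` of the cube. -/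
structure L2P (f : V → V) : Prop where
  per : Per f
  mem : ∀ i, MemLp (fun x => f x i) 2 (volume.restrict cube)

/-- Periodic vector fields of class `C¹`. -/
structure C1P (f : V → V) : Prop where
  c1 : ContDiff ℝ 1 f
  per : Per f

/-- The curl. -/
def curl (f : V → V) (x : V) : V :=
  ![pd 1 (fun y => f y 2) x - pd 2 (fun y => f y 1) x,
    pd 2 (fun y => f y 0) x - pd 0 (fun y => f y 2) x,
    pd 0 (fun y => f y 1) x - pd 1 (fun y => f y 0) x]

/-- `A` is a linear operator on the periodic `L²` vector fields, symmetric, of norm at most `δ`, which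
maps `C¹` fields to divergence-free `C¹` fields and multiplies the supremum of the first derivatives
by at most `δ`. -/
structure SmallOp (δ : ℝ) (A : (V → V) → V → V) : Prop where
  maps : ∀ f, L2P f → L2P (A f)
  add : ∀ f g, L2P f → L2P g → A (fun x => f x + g x) = fun x => A f x + A g x
  smul : ∀ (c : ℝ) f, L2P f → A (fun x => c • f x) = fun x => c • A f x
  symm : ∀ f g, L2P f → L2P g → ip f (A g) = ip (A f) g
  small : ∀ f, L2P f → ip (A f) (A f) ≤ δ ^ 2 * ip f f
  c1 : ∀ f, C1P f → C1P (A f)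
  div : ∀ f, C1P f → ∀ x, ∑ i, pd i (fun y => A f y i) x = 0
  grad : ∀ f L, C1P f → (∀ x i j, |pd j (fun y => f y i) x| ≤ L) →
    ∀ x i j, |pd j (fun y => A f y i) x| ≤ δ * L

/-- `A` is, in addition, nuclear and smoothing: it is a sum of operators
`f ↦ ⟨f, u n⟩ w n + ⟨f, w n⟩ u n` with smooth divergence-free fields `u n`, `w n`,
`∑ ‖u n‖ ‖w n‖ ≤ δ`; it gains `γ` derivatives in `L²`, with norm `δ`, and one derivative up to a
logarithmic factor. Moreover `A f` vanishes outside the tubes of radius `r` around the vertical axes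
through the centres of the cells, does not depend on the vertical coordinate, and has no horizontal
component if `f` has no vertical one. -/
structure Smoothing (γ δ r : ℝ) (A : (V → V) → V → V) : Prop where
  op : SmallOp δ A
  nuclear : ∃ u w : ℕ → V → V,
    (∀ n, ContDiff ℝ ∞ (u n) ∧ Per (u n) ∧ ContDiff ℝ ∞ (w n) ∧ Per (w n)) ∧
    (∀ n x, ∑ i, pd i (fun y => u n y i) x = 0 ∧ ∑ i, pd i (fun y => w n y i) x = 0) ∧
    Summable (fun n => √(ip (u n) (u n)) * √(ip (w n) (w n))) ∧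
    ∑' n, √(ip (u n) (u n)) * √(ip (w n) (w n)) ≤ δ ∧
    ∀ f x i, A f x i = ∑' n, (ip f (u n) * w n x i + ip f (w n) * u n x i)
  gain : ∀ f, L2P f → ∀ h : V,
    ip (fun x => A f (x + h) - A f x) (fun x => A f (x + h) - A f x) ≤ (δ * ‖h‖ ^ γ) ^ 2 * ip f f
  gain_log : ∃ K : ℝ, ∀ f, L2P f → ∀ h : V,
    ip (fun x => A f (x + h) - A f x) (fun x => A f (x + h) - A f x)
      ≤ (K * (‖h‖ * (1 + |Real.log ‖h‖|) ^ 3)) ^ 2 * ip f f
  tube : ∀ f x, A f x ≠ 0 → |Int.fract (x 0) - 1 / 2| ≤ r ∧ |Int.fract (x 1) - 1 / 2| ≤ r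
  vert : ∀ f x (s : ℝ), A f (x + Pi.single 2 s) = A f x
  planar : ∀ f, (∀ x, f x 2 = 0) → ∀ x, A f x 0 = 0 ∧ A f x 1 = 0

/-- `(v, p)` is a `C¹` solution on `[0, T)` of
`∂ₜ v + (v · ∇) v + ∇ p = (A v) × curl v`, `div v = 0`, `1`-periodic in each coordinate. -/
structure Sol (A : (V → V) → V → V) (T : ℝ) (v : ℝ → V → V) (p : ℝ → V → ℝ) : Prop where
  c1_v : ContDiffOn ℝ 1 (fun z : ℝ × V => v z.1 z.2) (Ico 0 T ×ˢ univ)
  c1_p : ∀ t ∈ Ioo 0 T, ContDiff ℝ 1 (p t)
  per_v : ∀ t ∈ Ico 0 T, Per (v t)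
  per_p : ∀ t ∈ Ioo 0 T, Per (p t)
  divfree : ∀ t ∈ Ico 0 T, ∀ x, ∑ i, pd i (fun y => v t y i) x = 0
  momentum : ∀ t ∈ Ioo 0 T, ∀ x i,
    deriv (fun s => v s x i) t + ∑ j, v t x j * pd j (fun y => v t y i) x + pd i (p t) x
      = crossProduct (A (v t) x) (curl (v t) x) i

end

end Pool.Agent.Q62.SP
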