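import Pool.Agent.Q62.SP.Asm
import Pool.Agent.Q137.SP.Der
import Pool.Agent.Q137.SP.Edn
import Pool.Agent.Q151.SP.Blg
import Pool.Agent.Q121.SP.Flo
import Pool.Agent.Q121.SP.Unc
import Pool.Agent.Q146.SP.Fin
import Pool.Agent.Q146.SP.Ggp
import Pool.Agent.Q146.SP.Int
import Pool.Agent.Q146.SP.Mzr
import Pool.Agent.Q146.SP.Pre
import Pool.Agent.Q151.SP.Sln
import Pool.Agent.Q151.SP.Zzz
import Pool.Agent.Q162.SP.Key
import Pool.Agent.Q162.SP.Lin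
import Pool.Agent.Q162.SP.Mon
import Pool.Agent.Q162.SP.Ybd
import Pool.Agent.Q162.SP.Ysm
import Pool.Agent.Q208.SP.BL
import Pool.Agent.Q223.SP.Phi
import Pool.Agent.Q251.SP.Bc1
import Pool.Agent.Q275.SP.Tri
import Pool.Agent.Q31.SP.Vol
import Pool.Agent.Q37.SP.Bdg
import Pool.Agent.Q37.SP.Bww
import Pool.Agent.Q37.SP.Div
import Pool.Agent.Q37.SP.Ene
import Pool.Agent.Q37.SP.Grd
import Pool.Agent.Q38.SP.Clk
import Pool.Agent.Q38.SP.Ffp
import Pool.Agent.Q38.SP.Min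
import Pool.Agent.Q38.SP.Per
import Pool.Agent.Q53.SP.Edi
import Pool.Agent.Q53.SP.Edp
import Pool.Agent.Q53.SP.Uni

/-!
Project SP: all the lemmas put together.
-/

namespace Pool.Agent.Q62.SP

theorem goal : Goal := by
  have phi : S_PHI := Q223.SP.t_PHI
  have ggp : S_GGP := t_GGP phi
  have ffp : S_FFP := Q38.SP.t_FFP phi ggp
  have mzr : S_MZR := t_MZR phi
  have pre : S_PRE := t_PRE phi
  have int : S_INT := t_INT
  have fin : S_FIN := t_FIN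
  have vol : S_VOL := Q31.SP.t_VOL
  have div : S_DIV := Q37.SP.t_DIV
  have ybd : S_YBD := Q162.SP.t_YBD phi ffp
  have ysm : S_YSM := Q162.SP.t_YSM phi ffp
  have mon : S_MON := Q162.SP.t_MON ybd
  have lin : S_LIN := Q162.SP.t_LIN ybd mon
  have key : S_KEY := Q162.SP.t_KEY ybd mon lin
  have flo : S_FLO := Q121.SP.Flo.t_FLO ysm ybd
  have unc : S_UNC := Q121.SP.Unc.t_UNC ysm
  have zzz : S_ZZZ := Q151.SP.t_ZZZ ysm ybd flo unc key
  have bww : S_BWW := Q37.SP.t_BWW phi ffp pre int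
  have sln : S_SLN := Q151.SP.t_SLN phi ffp Q38.SP.t_PER bww
  have edp : S_EDP := Q53.SP.t_EDP phi mzr int vol
  have edi : S_EDI := Q53.SP.t_EDI vol
  have bdg : S_BDG := Q37.SP.t_BDG
  have edn : S_EDN := Q137.SP.t_EDN phi Q38.SP.t_PER
  have blg : S_BLG := Q151.SP.t_BLG edi Q38.SP.t_MIN fin
  have uni : S_UNI := Q53.SP.t_UNI (Q275.SP.t_TRI div) bdg
  exact assembly phi (Q38.SP.t_CLK phi ffp) zzz edn edi
    (Q208.SP.bl2 edi Q38.SP.t_MIN fin) (Q208.SP.bgn edi Q38.SP.t_MIN fin)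
    (Q251.SP.t_BC1 edp) sln (Q37.SP.t_GRD phi) (Q37.SP.t_ENE div Q137.SP.t_DER) bdg uni blg

end Pool.Agent.Q62.SP
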