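import Pool.Agent.Q62.SP.Defs

/-!
Project SP: a small smoothing perturbation of the Euler equations with a finite time singularity.
Definitions and the statements of the steps, each with its proof in the docstring.

Overview. In the plane, with coordinates `(a, b)`, the vector fields `(VA n, VB n)` are
divergence-free, equal to the hyperbolic field `(a, -b)` in the square `|a|, |b| ≤ 11 / 2 ^ n` and
vanish outside `|a|, |b| ≤ 66 / 2 ^ n`. `th n` is a difference of two bumps at `b ≈ 5.1 / 2 ^ n` and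
`b ≈ 1.1 / 2 ^ n`. `(YA, YB)` is a convex combination of the fields `(VA n, VB n)`, with weights
`GG n s / FF s` which for `s ≥ 0` are carried by the `n` with `h / 11 < 1 / 2 ^ n < h`,
`h = 5 exp (-s)`. A curve is a solution of `x' = YA x y r`, `y' = YB x y r`.
-/

open MeasureTheory Set Filter Topology
open scoped ContDiff
open H459R3.NS (V pd Per cube)

namespace Pool.Agent.Q62.SP

noncomputable section

/-! ## The plane -/

/-- A smooth even bump, `1` on `[-1, 1]` and `0` outside `(-2, 2)`. -/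
def phi (y : ℝ) : ℝ := Real.smoothTransition (2 - y) * Real.smoothTransition (2 + y)

/-- A smooth even function, `1` on `[-1, 1]`, `0` outside `(-6, 6)`, with integral `0`. -/
def qq (s : ℝ) : ℝ := phi s - (phi (s - 4) + phi (s + 4)) / 2

/-- The odd antiderivative of `qq`. It is `s` on `[-1, 1]` and `0` outside `(-6, 6)`. -/
def PP (s : ℝ) : ℝ := ∫ y in (0 : ℝ)..s, qq y

/-- First component of the `n`-th cell. -/
def VA (n : ℕ) (a b : ℝ) : ℝ := 11 / 2 ^ n * PP (2 ^ n * a / 11) * qq (2 ^ n * b / 11)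

/-- Second component of the `n`-th cell. -/
def VB (n : ℕ) (a b : ℝ) : ℝ := -(11 / 2 ^ n * qq (2 ^ n * a / 11) * PP (2 ^ n * b / 11))

/-- The profile in the variable `b` of the sensors. -/
def psi (y : ℝ) : ℝ := phi (20 * (y - 51 / 10)) - phi (20 * (y - 11 / 10))

/-- The `n`-th sensor. -/
def th (n : ℕ) (a b : ℝ) : ℝ := phi (140 * (2 ^ n * a)) * psi (2 ^ n * b)

/-- `∫ phi (140 y) dy` -/
def ca : ℝ := ∫ y, phi (140 * y)

/-- `∫ phi (20 y) dy` -/
def cb : ℝ := ∫ y, phi (20 * y)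

/-- What a sensor reads when the front is at distance `1 / z`. -/
def gg (z : ℝ) : ℝ := ∫ y, (1 - phi (2 * (z * y))) * psi y

/-- The ratio of the scale `1 / 2 ^ n` and the position `5 exp (-s)` of the front. -/
def za (n : ℕ) (s : ℝ) : ℝ := Real.exp s / (5 * 2 ^ n)

/-- Weight of the `n`-th cell at the logarithmic time `s`. The second term only acts at negative
times. -/
def GG (n : ℕ) (s : ℝ) : ℝ :=
  ((n : ℝ) + 1) ^ 2 * gg (za n s) + if n = 0 then Real.smoothTransition (-s) else 0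

/-- The sum of the weights. -/
def FF (s : ℝ) : ℝ := ∑' n, GG n s

/-- First component of the velocity in logarithmic time. -/
def YA (a b s : ℝ) : ℝ := (∑' n, GG n s * VA n a b) / FF s

/-- Second component of the velocity in logarithmic time. -/
def YB (a b s : ℝ) : ℝ := (∑' n, GG n s * VB n a b) / FF s

/-- `(x, y)` is a trajectory. -/
def IsCurve (x y : ℝ → ℝ) : Prop :=
  ∀ r, HasDerivAt x (YA (x r) (y r) r) r ∧ HasDerivAt y (YB (x r) (y r) r) r

/-- `X a b s r` is the position at time `r` of the trajectory which is at `(a, b)` at time `s`. -/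
structure IsFlow (X : ℝ → ℝ → ℝ → ℝ → ℝ × ℝ) : Prop where
  smooth : ContDiff ℝ ∞ (fun z : ℝ × ℝ × ℝ × ℝ => X z.1 z.2.1 z.2.2.1 z.2.2.2)
  start : ∀ a b s, X a b s s = (a, b)
  curve : ∀ a b s, IsCurve (fun r => (X a b s r).1) (fun r => (X a b s r).2)
  group : ∀ a b s r r', X (X a b s r).1 (X a b s r).2 r r' = X a b s r'

/-- `Z a b s` is the second coordinate at time `0` of the trajectory which is at `(a, b)` at time
`s`; this structure lists its properties used later. -/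
structure IsZ (Z : ℝ → ℝ → ℝ → ℝ) : Prop where
  smooth : ContDiff ℝ ∞ (fun z : ℝ × ℝ × ℝ => Z z.1 z.2.1 z.2.2)
  init : ∀ a b, Z a b 0 = b
  transport : ∀ a b s, deriv (fun s => Z a b s) s + YA a b s * deriv (fun a => Z a b s) a
    + YB a b s * deriv (fun b => Z a b s) b = 0
  outside : ∀ a b s, (66 ≤ |a| ∨ 66 ≤ |b|) → Z a b s = b
  near : ∀ a b s, 0 ≤ s → |a| ≤ |b| / 70 → |b| * Real.exp s ≤ 5 → Z a b s = b * Real.exp s
  far : ∀ a b s, 0 ≤ s → |a| ≤ |b| / 70 → 5 ≤ |b| * Real.exp s → 5 ≤ |Z a b s|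

/-- The vertical velocity transported by the flow: `0` for `|Z| ≤ 5 / 2`, `1` for `5 ≤ |Z|`. -/
def WW (Z : ℝ → ℝ → ℝ → ℝ) (a b s : ℝ) : ℝ := 1 - phi (2 * Z a b s / 5)

/-- Job 1. Elementary properties of `phi`, `qq`, `PP`, `psi`.

Proof. `Real.smoothTransition` is smooth, monotone, with values in `[0, 1]`, `0` on `(-∞, 0]` and `1`
on `[1, ∞)`. So `phi` is smooth, even (swap the factors), in `[0, 1]`, `1` for `|y| ≤ 1`, `0` for
`2 ≤ |y|`; for `y ≥ 0` (even for `y ≥ -1`) the second factor is `1`, so `phi y = S (2 - y)` is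
antitone there. The three functions `phi s`, `phi (s - 4)`, `phi (s + 4)` vanish outside the disjoint
open intervals `(-2, 2)`, `(2, 6)`, `(-6, -2)`, so at most one is nonzero at each `s`, which gives
`-1/2 ≤ qq ≤ 1` and the values of `qq`. `PP` is smooth with derivative `qq` (fundamental theorem of
calculus, `qq` is continuous; `contDiff_infty_iff_deriv` or the like), odd since `qq` is even,
`PP s = s` for `|s| ≤ 1`. For `s ≥ 6`, `PP s = PP 6` and
`PP 6 = ∫₀² phi - 1/2 ∫₂⁶ phi (y - 4) dy = ∫₀² phi - 1/2 ∫₋₂² phi = 0` by evenness. For `0 ≤ s ≤ 2`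
`PP s ≥ 0` since `qq ≥ 0` on `[0, 2]`; for `2 ≤ s ≤ 6` `PP s = PP 6 - ∫_s^6 qq ≥ 0` since `qq ≤ 0`
on `[2, 6]`. `PP s ≤ s` for `s ≥ 0` as `qq ≤ 1`. Together with oddness: `0 ≤ s * PP s ≤ s ^ 2`. -/
def S_PHI : Prop :=
  (ContDiff ℝ ∞ phi ∧ (∀ y, 0 ≤ phi y ∧ phi y ≤ 1) ∧ (∀ y, |y| ≤ 1 → phi y = 1) ∧
    (∀ y, 2 ≤ |y| → phi y = 0) ∧ (∀ y, phi (-y) = phi y) ∧
    (∀ x y, 0 ≤ x → x ≤ y → phi y ≤ phi x)) ∧
  (ContDiff ℝ ∞ qq ∧ (∀ s, -(1 / 2) ≤ qq s ∧ qq s ≤ 1) ∧ (∀ s, |s| ≤ 1 → qq s = 1) ∧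
    (∀ s, 6 ≤ |s| → qq s = 0) ∧ (∀ s, qq (-s) = qq s)) ∧
  (ContDiff ℝ ∞ PP ∧ (∀ s, HasDerivAt PP (qq s) s) ∧ (∀ s, |s| ≤ 1 → PP s = s) ∧
    (∀ s, 6 ≤ |s| → PP s = 0) ∧ (∀ s, PP (-s) = -PP s) ∧ (∀ s, 0 ≤ s * PP s ∧ s * PP s ≤ s ^ 2) ∧
    (∀ s, |PP s| ≤ |s|)) ∧
  (ContDiff ℝ ∞ psi ∧ (∀ y, |psi y| ≤ 1) ∧ (∀ y, psi y ≠ 0 → 1 ≤ y ∧ y ≤ 52 / 10) ∧
    0 < ca ∧ 0 < cb)

/-- Job 2. Properties of `gg`. May use `S_PHI`.

Proof. Smooth: with `f = 1` and `g p u = (1 - phi (2 (p (-u)))) psi (-u)`, `gg p` is the convolution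
`∫ f t g p (x - t) dt` at `x = 0`; `g p` vanishes outside a fixed compact set and is jointly smooth,
so `contDiffOn_convolution_right_with_param` (or `..._comp`) applies; or differentiate under the
integral. Note
`gg z = ∫ ((1 - phi (2 z (u + 5.1))) - (1 - phi (2 z (u + 1.1)))) phi (20 u) du` (substitution in the
two parts), where `phi (20 u) ≠ 0` only for `|u| < 1/10`, so that both arguments are `≥ 0` and
ordered if `z ≥ 0`: `gg z ≥ 0` by the monotonicity of `phi` on `[0, ∞)`. If `0 ≤ z ≤ 1 / 11`, then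
on the support of `psi` (`1 ≤ y ≤ 5.2`) `0 ≤ 2 z y ≤ 1`, so the integrand is `0`. If `1 ≤ z`, then
`2 z y ≥ 2` there, so the integrand is `psi y`, whose integral is `cb - cb = 0`. If
`1 / 5 ≤ z ≤ 2 / 5`: where `phi (20 (y - 5.1)) ≠ 0` one has `y ≥ 5`, `2 z y ≥ 2`, factor `1`; where
`phi (20 (y - 1.1)) ≠ 0` one has `y ≤ 1.2`, `2 z y ≤ 0.96`, factor `0`. So `gg z = cb`. -/
def S_GGP : Prop :=
  ContDiff ℝ ∞ gg ∧ (∀ z, 0 ≤ z → 0 ≤ gg z) ∧ (∀ z, 0 ≤ z → z ≤ 1 / 11 → gg z = 0) ∧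
    (∀ z, 1 ≤ z → gg z = 0) ∧ (∀ z, 1 / 5 ≤ z → z ≤ 2 / 5 → gg z = cb)

/-- Job 3. Properties of the weights. May use `S_PHI`, `S_GGP`.

Proof. `GG n` is smooth and `≥ 0`. If `n ≥ 1` and `11 exp s ≤ 5 * 2 ^ n` then `0 < za n s ≤ 1 / 11`
and `GG n s = 0`; for `s < s₁` only the `n < N(s₁)` contribute, so the sum is locally finite: this
gives summability and smoothness of `FF`. Positivity: for `s < 0` the `n = 0` term is
`≥ smoothTransition (-s) > 0`. For `s ≥ 0` let `n = ⌊s / log 2⌋`, so `2 ^ n ≤ exp s ≤ 2 ^ (n + 1)`,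
`1/5 ≤ za n s ≤ 2/5`, `gg = cb` and `FF s ≥ (n + 1) ^ 2 cb`, where `n + 1 ≥ s / log 2 ≥ s` and
`n + 1 ≥ 1`, so `n + 1 ≥ (1 + s) / 2`. If `s ≤ -1` then `za n s ≤ exp (-1) / 5 ≤ 1 / 11` for all `n`
(as `e ≥ 2.2`), so `FF s = smoothTransition (-s) = 1`. The last item: for `s ≥ 0` the second term of
`GG` is `0` (`smoothTransition (-s) = 0`), and `gg (za n s) ≠ 0` forces `1/11 < za n s < 1`, which
is what is written. -/
def S_FFP : Prop :=
  (∀ n, ContDiff ℝ ∞ (GG n)) ∧ (∀ n s, 0 ≤ GG n s) ∧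
  (∀ n s, 1 ≤ n → 11 * Real.exp s ≤ 5 * 2 ^ n → GG n s = 0) ∧
  (∀ s, Summable (fun n => GG n s)) ∧ ContDiff ℝ ∞ FF ∧ (∀ s, 0 < FF s) ∧
  (∀ s, 0 ≤ s → cb / 4 * (1 + s) ^ 2 ≤ FF s) ∧ (∀ s, s ≤ -1 → FF s = 1) ∧
  (∀ n s, 0 ≤ s → GG n s ≠ 0 →
    5 * Real.exp (-s) < 11 * (1 / 2 ^ n) ∧ 1 / 2 ^ n < 5 * Real.exp (-s)) ∧
  (∀ n s, 0 ≤ s → GG n s = ((n : ℝ) + 1) ^ 2 * gg (za n s))

/-- Job 4. The clock: the solution of `S' = FF (S)`, `S 0 = 0` reaches infinity in finite time.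
May use `S_PHI`, `S_FFP`.

Proof. `t s = ∫₀ˢ 1 / FF` is smooth on `ℝ` with derivative `1 / FF s > 0`, `t 0 = 0`, strictly
increasing, `t s = t (-1) + (s + 1) → -∞` as `s → -∞` (`FF = 1` on `(-∞, -1]`), and bounded above as
`1 / FF s ≤ 4 / (cb (1 + s) ^ 2)` for `s ≥ 0`. Let `T = sup t = lim_{s → ∞} t s > 0`; `t` maps `ℝ`
onto `(-∞, T)` (intermediate values; the sup is not attained by strict monotonicity). `S` is its
inverse there (any value elsewhere). `HasStrictDerivAt.to_localInverse`, `OpenPartialHomeomorph`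
or `HasDerivAt.of_local_left_inverse` give the derivative `FF (S t)` (S is continuous on `(-∞, T)` as
a monotone surjection); smoothness of `S` on `Iio T` follows from the local inverse theorem
`ContDiffAt.to_localInverse` or by bootstrapping `S' = FF ∘ S`. `S t ≥ 0` for `t ≥ 0` by
monotonicity. `S t → ∞` as `t → T⁻`: for `K` given, `t K < T` and `S > K` on `(t K, T)`. -/
def S_CLK : Prop :=
  ∃ (T : ℝ) (S : ℝ → ℝ), 0 < T ∧ ContDiffOn ℝ ∞ S (Iio T) ∧ S 0 = 0 ∧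
    (∀ t, t < T → HasDerivAt S (FF (S t)) t) ∧ (∀ t, 0 ≤ t → t < T → 0 ≤ S t) ∧
    Tendsto S (𝓝[<] T) atTop

/-- Job 5. The velocity is smooth. May use `S_PHI`, `S_FFP`.

Proof. For `s < s₁` both sums are sums over `n < N(s₁)` (third item of `S_FFP`), all terms are
smooth in `(a, b, s)` and `FF` is smooth and positive. -/
def S_YSM : Prop :=
  ContDiff ℝ ∞ (fun z : ℝ × ℝ × ℝ => YA z.1 z.2.1 z.2.2) ∧
  ContDiff ℝ ∞ (fun z : ℝ × ℝ × ℝ => YB z.1 z.2.1 z.2.2)

/-- Job 6. Bounds for the velocity. May use `S_PHI`, `S_FFP`.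

Proof. `GG n s ≥ 0` and `∑ GG n s = FF s > 0`, only finitely many `GG n s` are nonzero for fixed `s`,
so `(YA, YB)` is a convex combination of the `(VA n a b, VB n a b)` over the `n` with `GG n s ≠ 0`,
and each claim follows from the same claim for `(VA n a b, VB n a b)` for those `n`. Let
`ℓ = 11 / 2 ^ n`. `VA n a b = ℓ PP (a / ℓ) qq (b / ℓ)`, `|PP x| ≤ |x|`, `|qq| ≤ 1` give
`|VA| ≤ |a|`, `|VB| ≤ |b|`. (Then `a VA ≥ -a²`, `b VB ≥ -b²`.) If `66 ≤ |a|` then
`|a| / ℓ ≥ 6 * 2 ^ n ≥ 6` and both components vanish; same for `b`. If `s ≥ 0`, `GG n s ≠ 0` and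
`h = 5 exp (-s)` then `h < ℓ < 11 h` (last but one item of `S_FFP`): if `|a|, |b| ≤ h` then
`|a / ℓ|, |b / ℓ| ≤ 1`, `VA = a`, `VB = -b`; if `66 h ≤ |b|` (or `|a|`) then `|b / ℓ| ≥ 6` and both
vanish. -/
def S_YBD : Prop :=
  (∀ a b s, |YA a b s| ≤ |a| ∧ |YB a b s| ≤ |b|) ∧
  (∀ a b s, (66 ≤ |a| ∨ 66 ≤ |b|) → YA a b s = 0 ∧ YB a b s = 0) ∧
  (∀ a b s, 0 ≤ s → |a| ≤ 5 * Real.exp (-s) → |b| ≤ 5 * Real.exp (-s) →
    YA a b s = a ∧ YB a b s = -b) ∧
  (∀ a b s, 0 ≤ s → (66 * (5 * Real.exp (-s)) ≤ |a| ∨ 66 * (5 * Real.exp (-s)) ≤ |b|) →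
    YA a b s = 0 ∧ YB a b s = 0)

/-- Job 7. Existence of the flow. May use `S_YSM`, `S_YBD`.

Proof. Apply `Pool.Agent.W585.exists_td_flow` (file `Pool/Agent/W585/Flow.lean` on main) with
`E = EuclideanSpace ℝ (Fin 2)` and `Y (x, s) = (YA (x 0) (x 1) s, YB (x 0) (x 1) s)`: it is smooth and
`|⟨x, Y⟩| ≤ |x 0| |YA| + |x 1| |YB| ≤ ‖x‖²` by `S_YBD`. It gives `Q x a t`, the position at time
`a + t` of the trajectory at `x` at time `a`. Put
`X a b s r = ((Q (a, b) s (r - s)) 0, (Q (a, b) s (r - s)) 1)`. -/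
def S_FLO : Prop := ∃ X, IsFlow X

/-- Job 8. Uniqueness of curves. May use `S_YSM`.

Proof. `(YA, YB)` is smooth, so on each compact time interval and compact set of positions it is
Lipschitz in the position; `ODE_solution_unique_of_mem_Icc` (both directions of time), or Gronwall.
(The two curves are continuous, hence bounded on each compact interval.) -/
def S_UNC : Prop := ∀ x y x' y' : ℝ → ℝ, IsCurve x y → IsCurve x' y' → ∀ s, x s = x' s → y s = y' s →
  ∀ r, x r = x' r ∧ y r = y' r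

/-- Job 9. Two monotone quantities. May use `S_YBD`.

Proof. The derivative of `(x r) ^ 2 * exp (2 r)` is `2 exp (2 r) (x YA + x ^ 2) ≥ 0` since
`|YA| ≤ |x|`. Same for `y`. -/
def S_MON : Prop := ∀ x y : ℝ → ℝ, IsCurve x y →
  Monotone (fun r => |x r| * Real.exp r) ∧ Monotone (fun r => |y r| * Real.exp r)

/-- Job 10. As long as `|x|` stays below the front, `|y| exp r` stays constant if it starts below the
front. May use `S_YBD`, `S_MON`.

Proof. Let `u r = |y r| exp r`, `v r = |x r| exp r`, nondecreasing by `S_MON`, continuous. By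
hypothesis `v ≤ v R ≤ 5` on `[0, R]` and `u 0 < 5`. Let `R' ∈ [0, R]` be the supremum of the
`r ∈ [0, R]` with `u r ≤ 5`. By monotonicity and continuity `u ≤ 5` on `[0, R']`. So on `[0, R']`
`|x r|, |y r| ≤ 5 exp (-r)` and `YB = -y r` by `S_YBD`: the derivative of `y r * exp r` vanishes on
`[0, R']` and `u` is constant there, `u R' = u 0 < 5`. If `R' < R`, continuity gives `u ≤ 5` slightly
beyond `R'`, a contradiction. So `R' = R`. -/
def S_LIN : Prop := ∀ x y : ℝ → ℝ, IsCurve x y → ∀ R, 0 ≤ R → |x R| * Real.exp R ≤ 5 → |y 0| < 5 →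
  |y R| * Real.exp R = |y 0|

/-- Job 11. The key lemma. May use `S_YBD`, `S_MON`, `S_LIN`.

Proof. Let `u r = |y r| exp r`, `v r = |x r| exp r`, nondecreasing (`S_MON`). Hypothesis:
`v s ≤ u s / 70`.
(a) `u s ≤ 5`: then `v r ≤ v s ≤ 5` and `u r ≤ 5` for `r ∈ [0, s]`, so `YB = -y r` on `[0, s]` by
`S_YBD`, the derivative of `y r * exp r` vanishes there, and `y 0 = y s * exp s`.
(b) `5 ≤ u s`; suppose `|y 0| < 5`. If `v s ≤ 5`, `S_LIN` with `R = s` gives `u s = |y 0| < 5`,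
a contradiction. If `v s > 5`, then `u s ≥ 70 v s > 350 > 330`. Let `r₂ ∈ [0, s]` be the supremum of
the `r` with `u r ≤ 330` (nonempty: `u 0 < 5`). By continuity `u r₂ = 330`, and `u ≥ 330` on
`[r₂, s]`, that is `|y r| ≥ 66 * (5 exp (-r))`, so `YA = YB = 0` there by `S_YBD` and the curve is
constant on `[r₂, s]`: `x r₂ = x s`, `y r₂ = y s`. So
`v r₂ = |x s| exp r₂ ≤ |y s| / 70 * exp r₂ = u r₂ / 70 = 330 / 70 < 5`.
`S_LIN` with `R = r₂` gives `u r₂ = |y 0| < 5`, contradicting `u r₂ = 330`. -/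
def S_KEY : Prop := ∀ x y : ℝ → ℝ, IsCurve x y → ∀ s, 0 ≤ s → |x s| ≤ |y s| / 70 →
  (|y s| * Real.exp s ≤ 5 → y 0 = y s * Real.exp s) ∧ (5 ≤ |y s| * Real.exp s → 5 ≤ |y 0|)

/-- Job 12. The function `Z`. May use `S_YSM`, `S_YBD`, `S_FLO`, `S_UNC`, `S_KEY`.

Proof. Let `X` be the flow of `S_FLO` and `Z a b s = (X a b s 0).2`. Smooth, `Z a b 0 = b`. By
`IsFlow.group`, `Z (X a b s r).1 (X a b s r).2 r = Z a b s` for all `r`: differentiate in `r` at
`r = s` (chain rule; the function `Z` of three variables is differentiable and its derivative applied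
to `(YA, YB, 1)` is the sum of the three one-dimensional derivatives times `YA, YB, 1`): this is
`transport`. `outside`: the constant curve `(a, b)` is a curve since `YA = YB = 0` there (`S_YBD`),
so `X a b s r = (a, b)` by `S_UNC`. `near` and `far` are `S_KEY` for the curve `X a b s`. -/
def S_ZZZ : Prop := ∃ Z, IsZ Z

/-- Job 13. What the sensors read. May use `S_PHI`.

Proof. If `th n a b ≠ 0` then `|a| < 1 / (70 * 2 ^ n)` and `1 / 2 ^ n ≤ b`, so `|a| ≤ |b| / 70`. If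
moreover `b exp s ≤ 5`, `Z a b s = b exp s`; if `b exp s ≥ 5` then `|Z a b s| ≥ 5` and
`phi (2 Z / 5) = 0 = phi (2 b exp s / 5)` (argument `≥ 2` in absolute value; `phi` is even). So in all
cases `WW Z a b s * th n a b = (1 - phi (2 b exp s / 5)) * th n a b`, a product of a function of `a`
and a function of `b`. `∫ phi (140 * (2 ^ n * a)) da = ca / 2 ^ n`, and with `b = y / 2 ^ n`
`∫ (1 - phi (2 b exp s / 5)) psi (2 ^ n b) db = 2 ^ (-n) ∫ (1 - phi (2 (za n s) y)) psi y dy`. -/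
def S_PRE : Prop := ∀ Z, IsZ Z → ∀ n s, 0 ≤ s →
  ∫ a, ∫ b, WW Z a b s * th n a b = ca * gg (za n s) / 4 ^ n

/-- Job 14. The cells and sensors have integral zero. May use `S_PHI`.

Proof. Each of the three integrals is the product of two one-dimensional integrals, one of which
vanishes: `∫ psi (2 ^ n b) db = 0`, as both bumps have the same integral, and
`∫ PP (2 ^ n a / 11) da = 0`, as `PP` is odd. (`integral_mul_const`, `integral_const_mul`.) -/
def S_MZR : Prop := ∀ n, (∫ a, ∫ b, th n a b = 0) ∧ (∫ a, ∫ b, VA n a b = 0) ∧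
  (∫ a, ∫ b, VB n a b = 0)

/-! ## The periodic box -/

/-- Cell coordinate: `N` times the signed distance to the centre `1/2` of the period. -/
def xi (N s : ℝ) : ℝ := N * (Int.fract s - 1 / 2)

/-- The `n`-th sensor as a vertical vector field. -/
def ee (N : ℝ) (n : ℕ) (x : V) : V := ![0, 0, th n (xi N (x 0)) (xi N (x 1))]

/-- The `n`-th cell as a horizontal vector field. -/
def dd (N : ℝ) (n : ℕ) (x : V) : V :=
  ![VA n (xi N (x 0)) (xi N (x 1)), VB n (xi N (x 0)) (xi N (x 1)), 0]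

/-- The coupling constants. -/
def ka (N : ℝ) (n : ℕ) : ℝ := N * ((n : ℝ) + 1) ^ 2 * 4 ^ n / ca

/-- The operator (before multiplication with a small constant). -/
def BB (N : ℝ) (f : V → V) (x : V) : V :=
  fun i => ∑' n, ka N n * (ip f (ee N n) * dd N n x i + ip f (dd N n) * ee N n x i)

/-- Job 15. Functions of the cell coordinates are smooth and periodic.

Proof. `Int.fract (s + 1) = Int.fract s` gives periodicity. Let `x₀ : V`, `s₀ : ℝ` be given. If
`x₀ 0` is not an integer, `Int.fract s = s - ⌊x₀ 0⌋` for `s` near `x₀ 0`, an affine function. If `x₀ 0`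
is an integer then for `|s - x₀ 0| < 1/6` the value `Int.fract s` is in `[0, 1/6) ∪ (5/6, 1)`, so
`|xi N s| ≥ N / 3 ≥ 66`, and by hypothesis the first argument of `f` may be replaced by the constant
`66`. Same for the second coordinate. So near `(s₀, x₀)` the function is `f` composed with an affine
map. The derivatives: in the affine case the chain rule gives the factor `N`; in the constant case
both sides are `0` (the function `a ↦ f a b s` is constant near `xi N (x 0)`, as `|xi N (x 0)| > 66`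
there: `N * (1/2) ≥ 99`). -/
def S_PER : Prop := ∀ N : ℝ, 198 ≤ N → ∀ f : ℝ → ℝ → ℝ → ℝ,
  ContDiff ℝ ∞ (fun z : ℝ × ℝ × ℝ => f z.1 z.2.1 z.2.2) →
  (∀ a b s, 66 ≤ |a| → f a b s = f 66 b s) → (∀ a b s, 66 ≤ |b| → f a b s = f a 66 s) →
  ContDiff ℝ ∞ (fun z : ℝ × V => f (xi N (z.2 0)) (xi N (z.2 1)) z.1) ∧
  ∀ s, Per (fun x : V => f (xi N (x 0)) (xi N (x 1)) s) ∧ ∀ x : V,
    pd 0 (fun x : V => f (xi N (x 0)) (xi N (x 1)) s) x
      = N * deriv (fun a => f a (xi N (x 1)) s) (xi N (x 0)) ∧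
    pd 1 (fun x : V => f (xi N (x 0)) (xi N (x 1)) s) x
      = N * deriv (fun b => f (xi N (x 0)) b s) (xi N (x 1)) ∧
    pd 2 (fun x : V => f (xi N (x 0)) (xi N (x 1)) s) x = 0

/-- Job 16. Integrals over the cube.

Proof. On `[0, 1)³` `Int.fract (x i) = x i`, and the rest of the cube is a null set. By Fubini
(`volume` on `Fin 3 → ℝ` is a product; e.g. `MeasurableEquiv.piFinSuccAbove`,
`volume_preserving_piFinTwo` and the like) the integral is
`(∫₀¹ g) * ∫₀¹ ∫₀¹ k (N (s - 1/2)) (N (t - 1/2)) dt ds`; substitute `a = N (s - 1/2)`,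
`b = N (t - 1/2)`, which run over `[-N/2, N/2] ⊇ [-99, 99]`, outside which `k` vanishes. -/
def S_INT : Prop := ∀ N : ℝ, 198 ≤ N → ∀ k : ℝ → ℝ → ℝ, Continuous (fun z : ℝ × ℝ => k z.1 z.2) →
  (∀ a b, (66 ≤ |a| ∨ 66 ≤ |b|) → k a b = 0) → ∀ g : ℝ → ℝ, Continuous g →
  ∫ x in cube, g (x 2) * k (xi N (x 0)) (xi N (x 1))
    = (∫ y in (0 : ℝ)..1, g y) * (∫ a, ∫ b, k a b) / N ^ 2

/-- The set where the `n`-th cell and sensor live. -/
def SS (N : ℝ) (n : ℕ) : Set V := {x | |xi N (x 0)| ≤ 66 / 2 ^ n ∧ |xi N (x 1)| ≤ 66 / 2 ^ n}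

/-- Job 17. Its measure.

Proof. Up to a null set `cube ∩ SS N n` is contained in the box
`|x 0 - 1/2| ≤ 66 / (N 2 ^ n)`, `|x 1 - 1/2| ≤ 66 / (N 2 ^ n)`, `0 ≤ x 2 ≤ 1` (`Real.volume_pi_Icc`
or the like; `Int.fract (x i) = x i` for `x i < 1`; the points with `x i = 1` have `fract = 0`,
`|xi| = N / 2 ≥ 99`, so they are not in `SS N n`). -/
def S_VOL : Prop := ∀ N : ℝ, 198 ≤ N → ∀ n : ℕ, MeasurableSet (SS N n) ∧
  volume.real (cube ∩ SS N n) ≤ (132 / (N * 2 ^ n)) ^ 2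

/-- Bounds for the cells and sensors. -/
structure EDB (N C : ℝ) : Prop where
  pos : 0 < C
  smooth : ∀ n, ContDiff ℝ ∞ (ee N n) ∧ ContDiff ℝ ∞ (dd N n)
  per : ∀ n, Per (ee N n) ∧ Per (dd N n)
  bd : ∀ n x i, |ee N n x i| ≤ 1 ∧ |dd N n x i| ≤ C / 2 ^ n
  grad : ∀ n x i j, |pd j (fun y => ee N n y i) x| ≤ C * 2 ^ n ∧ |pd j (fun y => dd N n y i) x| ≤ C
  div : ∀ n x, ∑ i, pd i (fun y => ee N n y i) x = 0 ∧ ∑ i, pd i (fun y => dd N n y i) x = 0
  supp : ∀ n x, (ee N n x ≠ 0 ∨ dd N n x ≠ 0) → x ∈ SS N n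

/-- Job 18. May use `S_PHI`, `S_PER`.

Proof. Each component is a function of the cell coordinates to which `S_PER` applies (constant in the
third argument; `th n`, `VA n`, `VB n` vanish for `|a| ≥ 66` or `|b| ≥ 66`, indeed for `|a|` or
`|b| > 66 / 2 ^ n`: `PP`, `qq` vanish outside `(-6, 6)`, and on the support of `th n`
`|a| ≤ 1 / (70 * 2 ^ n)`, `b ≤ 5.2 / 2 ^ n`). `|th| ≤ 1`; `|VA| ≤ |a|` on its support, so
`≤ 66 / 2 ^ n`. The `a`-derivative of `th n` is `140 * 2 ^ n * phi' (..) * psi (..)` and so on;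
`phi'`, `psi'`, `qq'` are bounded (continuous with compact support), `PP' = qq`, `|PP| ≤ 6`;
the derivatives of `VA n`, `VB n` are bounded by constants independent of `n`. Divergence of `dd`:
`N (qq (2^n a / 11) qq (2^n b / 11)) - N (qq .. qq ..) + 0 = 0`; divergence of `ee`: `pd 2` of a
function independent of `x 2`. -/
def S_EDN : Prop := ∀ N : ℝ, 198 ≤ N → ∃ C, EDB N C

/-- Job 19. `L²` norms of the cells and sensors and of their differences. May use `S_VOL`. Note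
`Pool.Agent.Q62.EL.int_shift` (file `Pool/Agent/Q62/EL/Ker2.lean` on main): for periodic `f : V → ℝ`,
`∫ x in cube, f (a + x) = ∫ x in cube, f x`.

Proof. With `m = (132 / (N 2 ^ n)) ^ 2`: `ip ee ee ≤ m`, `ip dd dd ≤ 2 (C / 2 ^ n) ^ 2 m`. For the
differences `D x = e (x + h) - e x`: first `|D|² ≤ 2 |e (x + h)|² + 2 |e x|²`, so
`∫ |D|² ≤ 4 ip e e`. Second, by the mean value inequality `|D_i x| ≤ 3 G ‖h‖` with `G` the bound of the
first derivatives (`G = C 2 ^ n` for `ee`, `G = C` for `dd`), and `D x ≠ 0` only if `x ∈ SS` or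
`x + h ∈ SS`; `SS N n` is invariant under integer translations, so the two sets have measure `≤ m` in
the cube, and `∫ |D|² ≤ 3 (3 G ‖h‖) ^ 2 * 2 m`. -/
def S_EDI : Prop := ∀ N C : ℝ, 198 ≤ N → EDB N C → ∃ K : ℝ, 0 < K ∧ ∀ n : ℕ,
  ip (ee N n) (ee N n) ≤ K ^ 2 / 4 ^ n ∧ ip (dd N n) (dd N n) ≤ K ^ 2 / 16 ^ n ∧
  ∀ h : V, ip (fun x => ee N n (x + h) - ee N n x) (fun x => ee N n (x + h) - ee N n x)
      ≤ K ^ 2 / 4 ^ n * min 1 (4 ^ n * ‖h‖ ^ 2) ∧
    ip (fun x => dd N n (x + h) - dd N n x) (fun x => dd N n (x + h) - dd N n x)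
      ≤ K ^ 2 / 16 ^ n * min 1 (4 ^ n * ‖h‖ ^ 2)

/-- Job 20. Pairings with `C¹` fields. May use `S_PHI`, `S_MZR`, `S_INT`, `S_VOL`.

Proof. `ip f (ee N n) = ∫ f_2(x) th n (xi N (x 0)) (xi N (x 1))` over the cube. Let
`g y = f_2 (1/2, 1/2, y)`. By `S_INT` and `S_MZR`, `∫ g (x 2) th n (..) (..) = 0`. On
`cube ∩ SS N n` (up to the null set where some `x i = 1`) `|x 0 - 1/2|, |x 1 - 1/2| ≤ 66 / (N 2 ^ n)`,
so `|f_2 (x) - g (x 2)| ≤ L * 132 / (N 2 ^ n)` (mean value inequality along two segments), and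
`|ip f (ee N n)| ≤ L (132 / (N 2 ^ n)) * 1 * (132 / (N 2 ^ n)) ^ 2`. The same for
`ip f (dd N n)` with the two horizontal components and `|dd| ≤ C / 2 ^ n`:
`≤ 2 L (132 / (N 2 ^ n)) ^ 3 C / 2 ^ n`. -/
def S_EDP : Prop := ∀ N C : ℝ, 198 ≤ N → EDB N C → ∃ K : ℝ, 0 < K ∧ ∀ (f : V → V) (L : ℝ), C1P f →
  (∀ x i j, |pd j (fun y => f y i) x| ≤ L) → ∀ n : ℕ,
  |ip f (ee N n)| ≤ K * L / 8 ^ n ∧ |ip f (dd N n)| ≤ K * L / 16 ^ n

/-- Job 21. Minkowski for a series of functions.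

Proof. `∫ (∑ (g n) ^ 2 / a n) = ∑ (∫ (g n) ^ 2) / a n ≤ ∑ a n < ∞` (monotone convergence, e.g. with
`lintegral`), so `∑ (g n x) ^ 2 / a n < ∞` for almost all `x`, and by Cauchy-Schwarz
`(∑ |g n x|) ^ 2 ≤ (∑ a n) (∑ (g n x) ^ 2 / a n)` there: summable almost everywhere, the sum is a
limit of its finite sums, hence `AEStronglyMeasurable`, and its square is integrable with integral
`≤ (∑ a n) ^ 2`. The last claim: `∑ ∫ |k g n| ≤ ∑ ‖k‖ a n < ∞`, so integral and sum commute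
(`hasSum_integral_of_summable_integral_norm`). -/
def S_MIN : Prop := ∀ (μ : Measure V) [IsFiniteMeasure μ] (g : ℕ → V → ℝ) (a : ℕ → ℝ),
  (∀ n, 0 < a n) → Summable a → (∀ n, MemLp (g n) 2 μ) → (∀ n, ∫ x, g n x ^ 2 ∂μ ≤ a n ^ 2) →
  (∀ᵐ x ∂μ, Summable (fun n => g n x)) ∧ MemLp (fun x => ∑' n, g n x) 2 μ ∧
  ∫ x, (∑' n, g n x) ^ 2 ∂μ ≤ (∑' n, a n) ^ 2 ∧
  ∀ k : V → ℝ, MemLp k 2 μ → Summable (fun n => ∫ x, k x * g n x ∂μ) ∧
    ∫ x, k x * (∑' n, g n x) ∂μ = ∑' n, ∫ x, k x * g n x ∂μ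

/-- Job 22. At each point only finitely many terms of `BB N f x` are nonzero. May use nothing else.

Proof. If `xi N (x 0) = 0 = xi N (x 1)` then `th n 0 0 = 0` (`psi 0 = 0`, from `S_PHI` or directly: the
arguments of both bumps have absolute value `≥ 2`) and `VA n 0 0 = VB n 0 0 = 0` (`PP 0 = 0`).
Otherwise `x ∉ SS N n` for large `n`, as `66 / 2 ^ n → 0`. -/
def S_FIN : Prop := ∀ N C : ℝ, 198 ≤ N → EDB N C → ∀ x : V,
  ∃ m : ℕ, ∀ n, m ≤ n → ee N n x = 0 ∧ dd N n x = 0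

/-- Job 23. The operator on `L²`: algebra. May use `S_EDI`, `S_MIN`, `S_FIN`.

Proof. Periodicity is clear. By `S_FIN` the sums are finite, so additivity and homogeneity follow from
those of `ip` (`ip f e` is an integral of products of `L²` functions and of a bounded continuous
function, all integrable). For `L²` fields `|ip f e| ≤ (ip f f)^(1/2) (ip e e)^(1/2)`
(Cauchy-Schwarz). With `M = (ip f f)^(1/2)`, the `L²` norm of the `i`-th component of the `n`-th term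
is at most `ka N n (M K 2^(-n) K 4^(-n) * 2) = 2 N K² / ca * M (n + 1)^2 2^(-n)`, summable in `n`
(make it positive by adding `2^(-n) ε`, or treat `M = 0` apart: then all pairings vanish). `S_MIN`
with `μ = volume.restrict cube` gives `MemLp` and the series formula
`ip f (BB N g) = ∑' n, ka N n (ip g (ee N n) ip f (dd N n) + ip g (dd N n) ip f (ee N n))`, which is
symmetric in `f` and `g`, and the bound (let `ε → 0`). -/
def S_BL2 : Prop := ∀ N C : ℝ, 198 ≤ N → EDB N C →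
  (∀ f, L2P f → L2P (BB N f)) ∧
  (∀ f g, L2P f → L2P g → BB N (fun x => f x + g x) = fun x => BB N f x + BB N g x) ∧
  (∀ (c : ℝ) f, L2P f → BB N (fun x => c • f x) = fun x => c • BB N f x) ∧
  (∀ f g, L2P f → L2P g → ip f (BB N g) = ip (BB N f) g) ∧
  ∃ K : ℝ, 0 < K ∧ ∀ f, L2P f → ip (BB N f) (BB N f) ≤ K ^ 2 * ip f f

/-- Job 24. The operator is smoothing. May use `S_EDI`, `S_MIN`, `S_FIN`.

Proof. `BB N f (x + h) - BB N f x = ∑' n, ka N n (ip f (ee N n) (D dd) + ip f (dd N n) (D ee))` with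
`D g = g (x + h) - g x` (finite sums at each point, `S_FIN`). With `M = (ip f f)^(1/2)` and
`min 1 (4^n ‖h‖²) ≤ (2^n ‖h‖)^(2γ)` (for `t ≥ 0`, `min 1 t² ≤ t^(2γ)` as `0 < γ < 1`), the `L²` norm
of the `i`-th component of the `n`-th term is at most
`ka N n * 2 * K² M 2^(-n) 4^(-n) (2^n ‖h‖)^γ = (2 N K² / ca) M ‖h‖^γ (n + 1)^2 2^(-n (1 - γ))`, which
is summable in `n`. `S_MIN` gives the bound (as in `S_BL2` make the bounds positive by adding
`ε 2^(-n)` and let `ε → 0`). -/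
def S_BGN : Prop := ∀ N C : ℝ, 198 ≤ N → EDB N C → ∀ γ : ℝ, 0 < γ → γ < 1 → ∃ K : ℝ, 0 < K ∧
  ∀ f, L2P f → ∀ h : V,
    ip (fun x => BB N f (x + h) - BB N f x) (fun x => BB N f (x + h) - BB N f x)
      ≤ (K * ‖h‖ ^ γ) ^ 2 * ip f f

/-- Job 25. The operator on `C¹` fields. May use `S_EDP`.

Proof. Let `f` be `C¹` and periodic; its first derivatives are bounded by some `L` (continuous and
periodic). By `S_EDP` and `EDB` the `n`-th term has values bounded by
`ka N n (K L 8^(-n) C 2^(-n) + K L 16^(-n)) = O((n + 1)^2 4^(-n)) L` and first derivatives bounded by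
`ka N n (K L 8^(-n) C + K L 16^(-n) C 2^n) = (2 N K C / ca) L (n + 1)^2 2^(-n)`. Both are summable, so
`contDiff_tsum` / `hasFDerivAt_tsum` (for each component) show that `BB N f` is `C¹` and may be
differentiated term by term; the divergence of each term is `0`. The last bound: sum the series, with
`K' = (2 N K C / ca) ∑ (n + 1)^2 2^(-n)`. -/
def S_BC1 : Prop := ∀ N C : ℝ, 198 ≤ N → EDB N C →
  (∀ f, C1P f → C1P (BB N f) ∧ ∀ x, ∑ i, pd i (fun y => BB N f y i) x = 0) ∧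
  ∃ K : ℝ, 0 < K ∧ ∀ f L, C1P f → (∀ x i j, |pd j (fun y => f y i) x| ≤ L) →
    ∀ x i j, |pd j (fun y => BB N f y i) x| ≤ K * L

/-- The velocity at logarithmic time `s`. -/
def ww (N : ℝ) (Z : ℝ → ℝ → ℝ → ℝ) (s : ℝ) (x : V) : V :=
  ![0, 0, WW Z (xi N (x 0)) (xi N (x 1)) s]

/-- Job 26. The operator on these velocities. May use `S_PHI`, `S_FFP`, `S_PRE`, `S_INT`.

Proof. `ip (ww N Z s) (dd N n) = 0` since the integrand is `0`. The integrand of
`ip (ww N Z s) (ee N n)` is `WW Z a b s * th n a b` at `a = xi N (x 0)`, `b = xi N (x 1)`; it vanishes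
for `|a| ≥ 66` or `|b| ≥ 66` and is continuous in `(a, b)`, so `S_INT` with `g = 1` and `S_PRE` give
`ip (ww N Z s) (ee N n) = ca gg (za n s) / (4 ^ n N ^ 2)`. So the `n`-th term of `BB N` is
`(n + 1)^2 gg (za n s) / N * dd N n x = GG n s / N * dd N n x` (last item of `S_FFP`), and by the
definition of `YA`, `YB` the sum is as claimed (`FF s ≠ 0`; `tsum_mul_left` etc.). -/
def S_BWW : Prop := ∀ N : ℝ, 198 ≤ N → ∀ Z, IsZ Z → ∀ s, 0 ≤ s → ∀ x : V,
  BB N (ww N Z s) x = ![FF s / N * YA (xi N (x 0)) (xi N (x 1)) s,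
    FF s / N * YB (xi N (x 0)) (xi N (x 1)) s, 0]

/-- Job 27. The solution. May use `S_PHI`, `S_FFP`, `S_PER`, `S_BWW`.

Proof. Let `f a b s = WW Z a b s`; it satisfies the hypotheses of `S_PER`: for `|a| ≥ 66` it is
`1 - phi (2 b / 5)`, for `|b| ≥ 66` it is `1` (`IsZ.outside`, `phi = 0` outside `(-2, 2)`).
`v t x = ww N Z (S t) x`, `S` smooth on `(-∞, T)`: smooth on `(-∞, T) × V`, periodic. Only the third
component is nonzero and it does not depend on `x 2` (`pd 2 = 0`), so `div v = 0` and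
`(v · ∇) v = 0`. `curl v = (pd 1 w, -pd 0 w, 0)` with `w` the third component. With
`A v = (c FF (S t) / N) (YA, YB, 0)` (`S_BWW`; `S t ≥ 0`), the cross product is
`(0, 0, -(c FF / N) (YA pd 0 w + YB pd 1 w))` and `pd 0 w = N ∂_a f`, `pd 1 w = N ∂_b f`. By the chain
rule `∂ₜ w = S' ∂_s f = c FF (S t) ∂_s f` and
`∂_s f + YA ∂_a f + YB ∂_b f = -phi' (2 Z / 5) (2 / 5) (∂_s Z + YA ∂_a Z + YB ∂_b Z) = 0`. -/
def S_SLN : Prop := ∀ N c T : ℝ, 198 ≤ N → 0 < c → 0 < T → ∀ Z, IsZ Z → ∀ S : ℝ → ℝ,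
  ContDiffOn ℝ ∞ S (Iio T) → (∀ t, t < T → HasDerivAt S (c * FF (S t)) t) →
  (∀ t, 0 ≤ t → t < T → 0 ≤ S t) →
  Sol (fun f x => c • BB N f x) T (fun t => ww N Z (S t)) (fun _ _ => 0) ∧
  ContDiffOn ℝ ∞ (fun z : ℝ × V => ww N Z (S z.1) z.2) (Ico 0 T ×ˢ univ)

/-- Job 28. The gradient of the solution. May use `S_PHI`.

Proof. `N ≥ 198`. At `x = (1/2, 1/2, 0)` the cell coordinates are `0, 0` and `Z 0 0 s = 0`
(`IsZ.near` with `a = b = 0`), so the third component is `1 - phi 0 = 0`. At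
`x' = (1/2, 1/2 + 5 exp (-s) / N, 0)` (second coordinate in `[1/2, 1)` as `5 / 198 < 1/2`) the cell
coordinates are `0`, `5 exp (-s)`, and `Z = 5` (`IsZ.near`), so the third component is
`1 - phi 2 = 1`. Mean value theorem on the segment between them. Smoothness of the third component in
`x` is a hypothesis. -/
def S_GRD : Prop := ∀ N : ℝ, 198 ≤ N → ∀ Z, IsZ Z → ∀ s, 0 ≤ s →
  ContDiff ℝ 1 (fun x : V => ww N Z s x 2) →
  ∃ x : V, N / 5 * Real.exp s ≤ |pd 1 (fun y => ww N Z s y 2) x|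

/-! ## Energy and uniqueness -/

/-- Job 29. Integration by parts for a divergence-free field. (The lemma
`H459R3.NS.integral_pd`, file `Pool/Agent/H459R3/NS/Phys.lean`, integrates a derivative of a `C¹`
periodic function over the cube.)

Proof. `∑ u_i pd i π = ∑ pd i (u_i π) - π ∑ pd i u_i`, and the functions `u_i π` are `C¹`, periodic. -/
def S_DIV : Prop := ∀ (u : V → V) (q : V → ℝ), C1P u → (∀ x, ∑ i, pd i (fun y => u y i) x = 0) →
  ContDiff ℝ 1 q → Per q → ∫ x in cube, ∑ i, u x i * pd i q x = 0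

/-- Job 30. Time derivative of the energy. May use nothing else (library: `Pool/Agent/H459R3/NS/Evo.lean`
has `hasDerivAt_int`, `hasDerivAt_slice`, `continuousOn_int`).

Proof. Let `B f g = ip f g + ip f (A g)`, bilinear and symmetric on continuous periodic fields (which
are `L2P`), `|B f g| ≤ (1 + |δ|) (ip f f)^(1/2) (ip g g)^(1/2)`. For `t` in the open interval let
`w x = ∂ₜ v`. `(v (t + h) - v t) / h → w` uniformly on the cube as `h → 0`, since the time derivative is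
continuous in `(t, x)`, hence uniformly continuous on compact sets; so also in the norm `ip`.
`(B (v (t+h)) (v (t+h)) - B (v t) (v t)) / h = B ((v (t+h) - v t) / h) (v (t+h) + v t) → 2 B w (v t)`.
And `B w (v t) = ip w (v t + A (v t))`. Continuity on `[0, T)` including `0` is similar:
`v s → v t` uniformly on the cube. -/
def S_DER : Prop := ∀ (δ : ℝ) (A : (V → V) → V → V), SmallOp δ A → ∀ (T : ℝ) (v : ℝ → V → V),
  ContDiffOn ℝ 1 (fun z : ℝ × V => v z.1 z.2) (Ico 0 T ×ˢ univ) → (∀ t ∈ Ico 0 T, Per (v t)) →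
  ContinuousOn (fun t => ip (v t) (v t) + ip (v t) (A (v t))) (Ico 0 T) ∧
  ∀ t ∈ Ioo 0 T, HasDerivAt (fun t => ip (v t) (v t) + ip (v t) (A (v t)))
    (2 * ∫ x in cube, ∑ i, deriv (fun s => v s x i) t * (v t x i + A (v t) x i)) t

/-- Job 31. Conservation of energy. May use `S_DIV`, `S_DER`.

Proof. Let `u = v t + A (v t)`, a `C¹` periodic field with `div u = 0` (`SmallOp.div` and
`Sol.divfree`). Pointwise, `(v · ∇) v = ∇ (|v|² / 2) - v × curl v`, so the equation reads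
`∂ₜ v = u × curl v - ∇ q`, `q = p + |v|² / 2`, and `∑ u_i ∂ₜ v_i = -∑ u_i pd i q` as
`u · (u × curl v) = 0`. By `S_DIV` its integral is `0`: the derivative in `S_DER` vanishes on
`(0, T)`, and the function is continuous on `[0, T)`, hence constant. -/
def S_ENE : Prop := ∀ (δ : ℝ) (A : (V → V) → V → V), SmallOp δ A → ∀ (T : ℝ) (v : ℝ → V → V)
  (p : ℝ → V → ℝ), Sol A T v p → ∀ t ∈ Ico 0 T,
  ip (v t) (v t) + ip (v t) (A (v t)) = ip (v 0) (v 0) + ip (v 0) (A (v 0))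

/-- Job 32. The difference of two velocities. May use `S_DIV`.

Proof. Let `d = v' - v`, `a = A v'`, `b = A v' - A v = A d` (linearity of `A`; `C1P` fields are
`L2P`). Pointwise
`D = -(v' · ∇) d - (d · ∇) v - ∇ q + a × curl d + b × curl v`. Integrate the product with `d`:
`∫ d · ((v' · ∇) d) = ∫ v' · ∇ (|d|² / 2) = 0` and `∫ d · ∇ q = 0` (`S_DIV`).
`|∑ d_i d_j pd j v_i| ≤ L (∑ |d_i|)² ≤ 3 L |d|²`.
`(a × curl d)_i = ∑_j a_j (pd i d_j - pd j d_i)`, so
`d · (a × curl d) = ∑ d_i a_j pd i d_j - a · ∇ (|d|² / 2)`; the second term integrates to `0`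
(`S_DIV`, `div a = 0`), the first is `∑_i d_i pd i (a · d) - ∑ d_i d_j pd i a_j`, where the first sum
integrates to `0` (`div d = 0`) and the second is at most `δ L (∑ |d_i|)² ≤ 3 δ L |d|²` in absolute
value by `SmallOp.grad`. Finally `|d · (b × curl v)| ≤ |d| |b| |curl v|` (Euclidean norms) with
`|curl v| ≤ 2 √3 L ≤ 4 L`, and `∫ |d| |b| ≤ (ip d d)^(1/2) (ip b b)^(1/2) ≤ δ ip d d` by
Cauchy-Schwarz and `SmallOp.small`. -/
def S_TRI : Prop := ∀ (δ : ℝ) (A : (V → V) → V → V), 0 ≤ δ → SmallOp δ A → ∀ v v' : V → V,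
  C1P v → C1P v' → (∀ x, ∑ i, pd i (fun y => v y i) x = 0) →
  (∀ x, ∑ i, pd i (fun y => v' y i) x = 0) → ∀ q : V → ℝ, ContDiff ℝ 1 q → Per q →
  ∀ L : ℝ, (∀ x i j, |pd j (fun y => v y i) x| ≤ L) → (∀ x i j, |pd j (fun y => v' y i) x| ≤ L) →
  ∀ D : V → V, (∀ x i, D x i = -(∑ j, v' x j * pd j (fun y => v' y i) x
      - ∑ j, v x j * pd j (fun y => v y i) x) - pd i q x
    + crossProduct (A v' x) (curl v' x) i - crossProduct (A v x) (curl v x) i) →
  ∫ x in cube, ∑ i, D x i * (v' x i - v x i)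
    ≤ (3 + 7 * δ) * L * ∫ x in cube, ∑ i, (v' x i - v x i) ^ 2

/-- Job 33. The first derivatives of a `C¹` velocity are bounded on `[0, b]`, `b < T`.

Proof. As in `pd_slice` (`Pool/Agent/H459R3/NS/Evo.lean`) `pd j (v t · i) x` is
`fderivWithin` of the function of `(t, x)` applied to a fixed vector, which is continuous on
`[0, T) × V` (`ContDiffOn ℝ 1`, unique differentiability); it is bounded on the compact set
`[0, b] × cube`, and by periodicity (`Per.pd` in `Pool/Agent/H459R3/NS/Phys.lean`; reduce `x` to the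
cube by an integer translation) on `[0, b] × V`. -/
def S_BDG : Prop := ∀ (T b : ℝ) (v : ℝ → V → V),
  ContDiffOn ℝ 1 (fun z : ℝ × V => v z.1 z.2) (Ico 0 T ×ˢ univ) → (∀ t ∈ Ico 0 T, Per (v t)) →
  b < T → ∃ L : ℝ, ∀ t ∈ Icc 0 b, ∀ x i j, |pd j (fun y => v t y i) x| ≤ L

/-- Job 34. Uniqueness. May use `S_TRI`, `S_BDG`.

Proof. Let `b < min T T'` and let `L` bound the first derivatives of `v` and `v'` on `[0, b]`
(`S_BDG`). `E t = ∫ ∑ (v' - v)_i² ` over the cube is continuous on `[0, b]`, differentiable on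
`(0, b)` (`hasDerivAt_int`) with derivative `2 ∫ ∑ (v' - v)_i ∂ₜ (v' - v)_i ≤ 2 (3 + 7 δ) L E` by the
equations and `S_TRI` (with `q = p' - p`), and `E 0 = 0`; so `E exp (-2 (3 + 7 δ) L t)` is
nonincreasing and `E = 0` on `[0, b]`. As `v' t - v t` is continuous, it vanishes on the interior of
the cube, then on the cube, and everywhere by periodicity. -/
def S_UNI : Prop := ∀ (δ : ℝ) (A : (V → V) → V → V), 0 ≤ δ → SmallOp δ A → ∀ (T T' : ℝ)
  (v v' : ℝ → V → V) (p p' : ℝ → V → ℝ), Sol A T v p → Sol A T' v' p' → v 0 = v' 0 →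
  ∀ t ∈ Ico 0 (min T T'), v t = v' t

end

end Pool.Agent.Q62.SP
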